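import Pool.Agent.TH28.FL.All

/-!
# Flatness for non-degenerate splittings of reductive Lie algebras (MP_80e906_al, Q1)

`k` is an algebraically closed field of characteristic zero, `g` a reductive Lie algebra over `k`
with a basis `b : Basis (Fin N) k g`. The symmetric algebra `S(g) = k[g*]` is
`MvPolynomial (Fin N) k`, the variable `X i` standing for `b i`.

The theorem: let `g = h ⊕ r` be a non-degenerate splitting such that the algebra `Z⟨h, r⟩` is a
polynomial ring with Hilbert basis `f`. Then `f` is a regular sequence in `S(g)`.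
-/

set_option autoImplicit false

universe u v

namespace Pool.Agent.Results.MP_80e906_al.Flat

open Module MvPolynomial

/-- Reductive Lie algebras: `g` is the direct sum of its centre and of an ideal whose solvable
radical is zero. -/
def Reductive (k : Type u) (g : Type v) [Field k] [LieRing g] [LieAlgebra k g] : Prop :=
  ∃ I : LieIdeal k g, IsCompl (LieAlgebra.center k g).toSubmodule I.toSubmodule ∧
    LieAlgebra.HasTrivialRadical k I

section defs

variable {k : Type u} [Field k] {g : Type v} [LieRing g] [LieAlgebra k g] {N : ℕ}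

/-- The embedding of `g` in `S(g)`: the linear map with `b i ↦ X i`. -/
noncomputable def lin (b : Basis (Fin N) k g) : g →ₗ[k] MvPolynomial (Fin N) k :=
  b.constr k fun i => (X i : MvPolynomial (Fin N) k)

/-- The Lie-Poisson bracket on `S(g)` of a bilinear bracket `β` on the vector space `g`:
the biderivation with `{x, y} = β x y` for `x`, `y` in `g`. -/
noncomputable def pbr (b : Basis (Fin N) k g) (β : g →ₗ[k] g →ₗ[k] g)
    (p q : MvPolynomial (Fin N) k) : MvPolynomial (Fin N) k :=
  ∑ i, ∑ j, pderiv i p * pderiv j q * lin b (β (b i) (b j))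

/-- The index of a bracket `β`: the least dimension of a stabiliser
`{x | ξ (β x y) = 0 for all y}`, `ξ` in the dual space of `g`. -/
noncomputable def ind (β : g →ₗ[k] g →ₗ[k] g) : ℕ :=
  sInf (Set.range fun ξ : Dual k g => finrank k (LinearMap.ker (β.compr₂ ξ)))

/-- The bracket `(x, y) ↦ [P x, P y] + Q ([P x, Q y] + [Q x, P y])`. For the projections `P`, `Q`
to the two summands of a splitting `g = p ⊕ q` this is the bracket of the semidirect product
of `p` with the abelian Lie algebra `q`. -/
noncomputable def contr (P Q : g →ₗ[k] g) : g →ₗ[k] g →ₗ[k] g :=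
  LinearMap.mk₂ k (fun x y => ⁅P x, P y⁆ + Q (⁅P x, Q y⁆ + ⁅Q x, P y⁆))
    (by intro x x' y; simp only [map_add, add_lie]; abel)
    (by intro c x y; simp only [map_smul, smul_lie, smul_add, map_add])
    (by intro x y y'; simp only [map_add, lie_add]; abel)
    (by intro c x y; simp only [map_smul, lie_smul, smul_add, map_add])

variable (h r : LieSubalgebra k g) (hc : IsCompl h.toSubmodule r.toSubmodule)

/-- The projection to `h` along `r`. -/
noncomputable def prh : g →ₗ[k] g := h.toSubmodule.projection r.toSubmodule hc

/-- The projection to `r` along `h`. -/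
noncomputable def prr : g →ₗ[k] g := r.toSubmodule.projection h.toSubmodule hc.symm

/-- The brackets `[ , ]_t` on `g` for `t` in `k ∪ {∞}`, `none` standing for `∞`:
`[ , ]_∞` is the bracket of `r ⋉ h^ab`, and `[ , ]_t = [ , ]_0 + t [ , ]_∞` for `t` in `k`,
where `[ , ]_0` is the bracket of `h ⋉ r^ab`. -/
noncomputable def brt : Option k → (g →ₗ[k] g →ₗ[k] g)
  | none => contr (prr h r hc) (prh h r hc)
  | some t => contr (prh h r hc) (prr h r hc) + t • contr (prr h r hc) (prh h r hc)

/-- `t` is in `ℙ_reg`: the index of `[ , ]_t` is minimal. -/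
def IsReg (t : Option k) : Prop := ∀ s : Option k, ind (brt h r hc t) ≤ ind (brt h r hc s)

/-- The algebra `Z⟨h, r⟩` generated by the Poisson centres of `{ , }_t`, `t` in `ℙ_reg`. -/
noncomputable def Zalg (b : Basis (Fin N) k g) : Subalgebra k (MvPolynomial (Fin N) k) :=
  Algebra.adjoin k {f | ∃ t : Option k, IsReg h r hc t ∧ ∀ q, pbr b (brt h r hc t) f q = 0}

end defs

/-- Let `g = h ⊕ r` be a non-degenerate splitting of a reductive Lie algebra over an algebraically
closed field of characteristic zero: `ind g_(0) = ind g_(∞) = rk g` (`rk g` is the dimension of a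
Cartan subalgebra `t`). If `f` is a Hilbert basis of `Z⟨h, r⟩` (algebraically independent
homogeneous generators), then `f` is a regular sequence in `S(g)`. -/
theorem result (k : Type u) [Field k] [CharZero k] [IsAlgClosed k] (g : Type v) [LieRing g]
    [LieAlgebra k g] (hg : Reductive k g) (N : ℕ) (b : Basis (Fin N) k g)
    (h r : LieSubalgebra k g) (hc : IsCompl h.toSubmodule r.toSubmodule)
    (t : LieSubalgebra k g) [t.IsCartanSubalgebra]
    (h0 : ind (brt h r hc (some 0)) = finrank k t) (hinf : ind (brt h r hc none) = finrank k t)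
    (m : ℕ) (f : Fin m → MvPolynomial (Fin N) k)
    (hhom : ∀ i, ∃ n, (f i).IsHomogeneous n) (hai : AlgebraicIndependent k f)
    (hgen : Algebra.adjoin k (Set.range f) = Zalg h r hc b) :
    RingTheory.Sequence.IsRegular (MvPolynomial (Fin N) k) (List.ofFn f) := by
  obtain ⟨I, hI, hrad⟩ := hg
  have : FiniteDimensional k g := b.finiteDimensional_of_finite
  exact Pool.Agent.TH28.FL.final Pool.Agent.TH28.FL.aPC Pool.Agent.TH28.FL.aP4F
    Pool.Agent.TH28.FL.aP3 TH999.J1854.h1 TH699.J1855.h2 Pool.Agent.TH28.FL.aRKG k g I hI hrad N b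
    h r hc t h0 hinf m f hhom hai hgen

end Pool.Agent.Results.MP_80e906_al.Flat
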